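import Pool.Agent.E8helper48.RR.Stm2
import Pool.Agent.E8helper73.RR.Mono

/-!
# RR, piece MM: a solution converges, or it is eventually in `[L, 1 - A]`
(after `Pool.Agent.E8helper73.RR.Mono`)
-/

set_option autoImplicit false

namespace Pool.Agent.E8helper91.RR

open Filter Topology RR48
open Pool.Agent.E8helper73.RR (quad bounds)

/-- the inequalities -/
theorem alg2 {al A B D I S v u w v' u' w' : ℝ} (hA : 0 ≤ A) (hB : 0 ≤ B) (hD : 0 < D)
    (hI : 0 < I) (hIS : I ≤ S)
    (hv : I ≤ v ∧ v ≤ S) (hu : I ≤ u ∧ u ≤ S) (hw : I ≤ w ∧ w ≤ S)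
    (hv' : I ≤ v' ∧ v' ≤ S) (hu' : I ≤ u' ∧ u' ≤ S) (hw' : I ≤ w' ∧ w' ≤ S)
    (h1 : S * (A + B * w + u + D * v) = al + u)
    (h2 : I * (A + B * w' + u' + D * v') = al + u') : I = S ∨ A + S + I ≤ 1 := by
  have hS : 0 < S := hI.trans_le hIS
  have h1a : S * (A + (B + D) * I) + (S - 1) * u ≤ al := by
    have e1 : 0 ≤ S * (B * (w - I)) := mul_nonneg hS.le (mul_nonneg hB (by linarith [hw.1]))
    have e2 : 0 ≤ S * (D * (v - I)) := mul_nonneg hS.le (mul_nonneg hD.le (by linarith [hv.1]))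
    linarith [e1, e2, h1]
  have h2a : al ≤ I * (A + (B + D) * S) + (I - 1) * u' := by
    have e1 : 0 ≤ I * (B * (S - w')) := mul_nonneg hI.le (mul_nonneg hB (by linarith [hw'.2]))
    have e2 : 0 ≤ I * (D * (S - v')) := mul_nonneg hI.le (mul_nonneg hD.le (by linarith [hv'.2]))
    linarith [e1, e2, h2]
  by_contra hne
  push Not at hne
  obtain ⟨hne, hc⟩ := hne
  have hlt : I < S := lt_of_le_of_ne hIS hne
  rcases le_or_gt S 1 with hS1 | hS1
  · have h1b : (S - 1) * S ≤ (S - 1) * u := by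
      have : 0 ≤ (1 - S) * (S - u) := mul_nonneg (by linarith) (by linarith [hu.2])
      linarith [this]
    have h2b : (I - 1) * u' ≤ (I - 1) * I := by
      have : 0 ≤ (1 - I) * (u' - I) := mul_nonneg (by linarith) (by linarith [hu'.1])
      linarith [this]
    have h3 : (S - I) * (A + S + I - 1) ≤ 0 := by linarith [h1a, h2a, h1b, h2b]
    have : 0 < (S - I) * (A + S + I - 1) := mul_pos (by linarith) (by linarith)
    linarith
  · have h1b : (S - 1) * I ≤ (S - 1) * u := by
      have : 0 ≤ (S - 1) * (u - I) := mul_nonneg (by linarith) (by linarith [hu.1])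
      linarith [this]
    rcases le_or_gt I 1 with hI1 | hI1
    · have h2b : (I - 1) * u' ≤ (I - 1) * I := by
        have : 0 ≤ (1 - I) * (u' - I) := mul_nonneg (by linarith) (by linarith [hu'.1])
        linarith [this]
      have h3 : (S - I) * (A + I) ≤ 0 := by linarith [h1a, h2a, h1b, h2b]
      have : 0 < (S - I) * (A + I) := mul_pos (by linarith) (by linarith)
      linarith
    · have h2b : (I - 1) * u' ≤ (I - 1) * S := by
        have : 0 ≤ (I - 1) * (S - u') := mul_nonneg (by linarith) (by linarith [hu'.2])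
        linarith [this]
      have h3 : (S - I) * (A + 1) ≤ 0 := by linarith [h1a, h2a, h1b, h2b]
      have : 0 < (S - I) * (A + 1) := mul_pos (by linarith) (by linarith)
      linarith

/-- **MM** -/
theorem t_MM : S_MM := by
  intro al A B D x hal hA hB hD hx
  obtain ⟨L, K, hL, hb⟩ := bounds hal hA hB hD hx
  obtain ⟨y, hy⟩ : ∃ y : ℕ → ℝ, y = fun n => x (n + 3) := ⟨_, rfl⟩
  have hyb : ∀ n, y n ∈ Set.Icc L K := by
    intro n
    rw [hy]
    exact hb n
  have hstep : ∀ n, y (n + 3) * (A + B * y (n + 2) + y (n + 1) + D * y n) = al + y (n + 1) := by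
    intro n
    rw [hy]
    show x (n + 3 + 3) * (A + B * x (n + 3 + 2) + x (n + 3 + 1) + D * x (n + 3)) =
      al + x (n + 3 + 1)
    rw [hx.step (n + 3), div_mul_cancel₀ _ (hx.den (n + 3)).ne']
  have hbU : atTop.IsBoundedUnder (· ≤ ·) y := isBoundedUnder_of ⟨K, fun n => (hyb n).2⟩
  have hbL : atTop.IsBoundedUnder (· ≥ ·) y := isBoundedUnder_of ⟨L, fun n => (hyb n).1⟩
  obtain ⟨S, hS⟩ : ∃ S, S = limsup y atTop := ⟨_, rfl⟩
  obtain ⟨I, hI⟩ : ∃ I, I = liminf y atTop := ⟨_, rfl⟩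
  have hup : ∀ ε > 0, ∃ N, ∀ n ≥ N, y n < S + ε := by
    intro ε hε
    exact eventually_atTop.1 (eventually_lt_of_limsup_lt (by rw [← hS]; linarith) hbU)
  have hlo : ∀ ε > 0, ∃ N, ∀ n ≥ N, I - ε < y n := by
    intro ε hε
    exact eventually_atTop.1 (eventually_lt_of_lt_liminf (by rw [← hI]; linarith) hbL)
  have hcS : ∀ ε > 0, ∀ N, ∃ n ≥ N, |y n - S| < ε := by
    intro ε hε N
    obtain ⟨N', hN'⟩ := hup ε hε
    have hf : ∃ᶠ n in atTop, S - ε < y n :=
      frequently_lt_of_lt_limsup hbL.isCoboundedUnder_le (by rw [← hS]; linarith)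
    obtain ⟨n, hn, h1⟩ := frequently_atTop.1 hf (max N N')
    refine ⟨n, (le_max_left _ _).trans hn, ?_⟩
    have h2 := hN' n ((le_max_right _ _).trans hn)
    rw [abs_lt]
    constructor <;> linarith
  have hcI : ∀ ε > 0, ∀ N, ∃ n ≥ N, |y n - I| < ε := by
    intro ε hε N
    obtain ⟨N', hN'⟩ := hlo ε hε
    have hf : ∃ᶠ n in atTop, y n < I + ε :=
      frequently_lt_of_liminf_lt hbU.isCoboundedUnder_ge (by rw [← hI]; linarith)
    obtain ⟨n, hn, h1⟩ := frequently_atTop.1 hf (max N N')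
    refine ⟨n, (le_max_left _ _).trans hn, ?_⟩
    have h2 := hN' n ((le_max_right _ _).trans hn)
    rw [abs_lt]
    constructor <;> linarith
  have hIL : L ≤ I := by
    rw [hI]
    exact le_liminf_of_le hbU.isCoboundedUnder_ge (Eventually.of_forall fun n => (hyb n).1)
  have hI0 : 0 < I := hL.trans_le hIL
  have hIS : I ≤ S := by
    rw [hI, hS]
    exact liminf_le_limsup hbU hbL
  obtain ⟨v, u, w, hv, hu, hw, φ, l1, l2, l3, l4⟩ := quad hyb hup hlo hcS
  obtain ⟨v', u', w', hv', hu', hw', φ', l1', l2', l3', l4'⟩ := quad hyb hup hlo hcI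
  have e1 : S * (A + B * w + u + D * v) = al + u := by
    have t1 : Tendsto (fun k => y (φ k + 3) * (A + B * y (φ k + 2) + y (φ k + 1) + D * y (φ k)))
        atTop (𝓝 (S * (A + B * w + u + D * v))) :=
      l4.mul (((tendsto_const_nhds.add (l3.const_mul B)).add l2).add (l1.const_mul D))
    have t2 : Tendsto (fun k => al + y (φ k + 1)) atTop (𝓝 (al + u)) := l2.const_add al
    refine tendsto_nhds_unique t1 (t2.congr fun k => ?_)
    exact (hstep (φ k)).symm
  have e2 : I * (A + B * w' + u' + D * v') = al + u' := by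
    have t1 : Tendsto (fun k => y (φ' k + 3) * (A + B * y (φ' k + 2) + y (φ' k + 1) + D * y (φ' k)))
        atTop (𝓝 (I * (A + B * w' + u' + D * v'))) :=
      l4'.mul (((tendsto_const_nhds.add (l3'.const_mul B)).add l2').add (l1'.const_mul D))
    have t2 : Tendsto (fun k => al + y (φ' k + 1)) atTop (𝓝 (al + u')) := l2'.const_add al
    refine tendsto_nhds_unique t1 (t2.congr fun k => ?_)
    exact (hstep (φ' k)).symm
  rcases alg2 hA hB hD hI0 hIS hv hu hw hv' hu' hw' e1 e2 with hIS' | hsum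
  · left
    refine ⟨I, hI0, ?_⟩
    have hyt : Tendsto y atTop (𝓝 I) :=
      tendsto_of_liminf_eq_limsup hI.symm (by rw [← hS, hIS']) hbU hbL
    rw [hy] at hyt
    exact (tendsto_add_atTop_iff_nat 3).1 hyt
  · right
    refine ⟨L, hL, ?_⟩
    obtain ⟨N, hN⟩ := hup I hI0
    rw [eventually_atTop]
    refine ⟨N + 3, fun n hn => ?_⟩
    obtain ⟨m, rfl⟩ : ∃ m, n = m + 3 := ⟨n - 3, by omega⟩
    have h1 := hN m (by omega)
    have h2 := (hyb m).1
    rw [hy] at h1 h2
    exact ⟨h2, by linarith⟩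

end Pool.Agent.E8helper91.RR
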